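import Pool.Agent.Y875.FP.MerN

/-!
# A criterion for the primality of `n^n + 1` in the bases `n^s - 1` and `n^s + 1`, `s` odd

If `n^n + 1` is prime and `n ≥ 2` then `n = 2^(2^k)`.  For such `n ≥ 16` the `2n`-th power residue
class modulo `n^n + 1` of every number `n^s - 1` and `n^s + 1`, `s` odd, is a primitive eighth root
of unity given in closed form if `n^n + 1` is prime, and conversely each single one of these
congruences forces `n^n + 1` to be prime.
-/

namespace Pool.Agent.Results.MP_a70bdc_nt.PowerBases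

/-- `c` is the inverse of the odd number `s` modulo `2 n`. -/
theorem result (k n s c : ℕ) (hk : 2 ≤ k) (hn : n = 2 ^ (2 ^ k)) (hc : c < 2 * n)
    (hsc : s * c ≡ 1 [MOD 2 * n]) :
    ((n ^ n + 1).Prime ↔ ((n ^ s - 1 : ℕ) : ZMod (n ^ n + 1)) ^ (n ^ (n - 1) / 2) =
      (n : ZMod (n ^ n + 1)) ^ ((if c < n then 1 else 7) * s * (n / 4))) ∧
    ((n ^ n + 1).Prime ↔ ((n ^ s + 1 : ℕ) : ZMod (n ^ n + 1)) ^ (n ^ (n - 1) / 2) =
      (n : ZMod (n ^ n + 1)) ^ ((if c < n then 7 else 1) * s * (n / 4))) :=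
  Pool.Agent.Y875.FP.nn_criterion hk hn hc hsc

end Pool.Agent.Results.MP_a70bdc_nt.PowerBases
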