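import Pool.Agent.Y875.UE.Fin3
import Pool.Agent.Y875.UE.NN

/-!
# Primality of `n^n + 1` in every base

If `n^n + 1` is prime and `n ≥ 2` then `n = 2^(2^k)`.  For every integer `b` other than `0` and
`± 2^j` there are a period `P` and a `P`-periodic function `v` such that for all large `k` and
`n = 2^(2^k)` the number `n^n + 1` is prime if and only if `b` has order `n^n / 2^(v k)` modulo
`n^n + 1`.  The number `v k` is the `2`-adic valuation of a transcendental `2`-adic integer given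
by `2`-adic logarithms of Jacobi sums, which describes the power residue symbols of `b` at all
levels `2^r ≤ 2^k n / 4^(l + 1)`, `l = log_2 |b|`; in particular at the level `2 n`, where the
symbols of the numbers `b (n^s - 1)`, `s` odd, are known as well.
-/

set_option autoImplicit false

namespace Pool.Agent.Results.MP_a70bdc_nt.UniversalBases

open Finset

/-- `L` is Iwasawa's `2`-adic logarithm on `ℂ_2`, normalised by `L 2 = 0`
(the value at `0` is irrelevant). -/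
structure IsLog (L : ℂ_[2] → ℂ_[2]) : Prop where
  mul : ∀ x y : ℂ_[2], x ≠ 0 → y ≠ 0 → L (x * y) = L x + L y
  two : L 2 = 0
  ser : ∀ z : ℂ_[2], ‖z‖ < 1 →
    HasSum (fun n : ℕ => (-1 : ℂ_[2]) ^ n * z ^ (n + 1) / ((n : ℂ_[2]) + 1)) (L (1 + z))

/-- the exponent `e` in `p - 1 = 2^e u`, `u` odd -/
def ee (p : ℕ) : ℕ := padicValNat 2 (p - 1)

/-- the odd number `u` in `p - 1 = 2^e u` -/
def uu (p : ℕ) : ℕ := (p - 1) / 2 ^ ee p

/-- The Jacobi sum of `χ^a` and of the Legendre symbol modulo `p`. -/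
noncomputable def J (p : ℕ) (χ : MulChar (ZMod p) (AlgebraicClosure ℚ)) (a : ℕ) :
    AlgebraicClosure ℚ :=
  ∑ s ∈ range p, χ (s : ZMod p) ^ a * (jacobiSym (1 - s) p : AlgebraicClosure ℚ)

/-- The `2`-adic number attached to an odd prime `p`, a character `χ` of order `u` modulo `p`
and `m`. -/
noncomputable def C (L : ℂ_[2] → ℂ_[2]) (τ : AlgebraicClosure ℚ →+* ℂ_[2]) (p : ℕ)
    (χ : MulChar (ZMod p) (AlgebraicClosure ℚ)) (m : ℕ) : ℂ_[2] :=
  L (p : ℂ_[2]) / 4 + ∑ a ∈ Ico 1 (uu p), τ (χ ((2 : ZMod p) ^ (2 ^ (m + 1 - ee p)))⁻¹) ^ a *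
    (L (τ (J p χ a)) / 2 - L (p : ℂ_[2]) / 4)

theorem result :
    -- the data exist
    (∃ L, IsLog L) ∧ Nonempty (AlgebraicClosure ℚ →+* ℂ_[2]) ∧
    (∃ χ : ∀ p : ℕ, MulChar (ZMod p) (AlgebraicClosure ℚ),
      ∀ p : ℕ, p.Prime → Odd p → orderOf (χ p) = uu p) ∧
    -- the theorem
    ∀ (L : ℂ_[2] → ℂ_[2]) (_ : IsLog L) (τ : AlgebraicClosure ℚ →+* ℂ_[2])
      (χ : ∀ p : ℕ, MulChar (ZMod p) (AlgebraicClosure ℚ))
      (_ : ∀ p : ℕ, p.Prime → Odd p → orderOf (χ p) = uu p)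
      (b : ℤ) (_ : b ≠ 0) (_ : ∀ j : ℕ, b ≠ 2 ^ j ∧ b ≠ -2 ^ j),
      -- the criterion for all large `n`, periodic in `k`
      (∃ (P K : ℕ) (v : ℕ → ℕ), 0 < P ∧ (∀ k, v (k + P) = v k) ∧
        ∀ k n : ℕ, K ≤ k → n = 2 ^ (2 ^ k) →
          ((n ^ n + 1).Prime ↔ orderOf (b : ZMod (n ^ n + 1)) = n ^ n / 2 ^ v k)) ∧
      -- the explicit form
      ∃ (T : ℕ) (c : ZMod T → ℤ_[2]), 0 < T ∧ (∀ i, Transcendental ℚ (c i : ℚ_[2])) ∧
        ∀ k n : ℕ, n = 2 ^ (2 ^ k) → 4 ^ (Nat.log 2 b.natAbs + 1) ≤ 2 ^ k * n →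
          -- the value of the 2-adic number
          algebraMap ℚ_[2] ℂ_[2] (c ((k + 2 ^ k : ℕ) : ZMod T) : ℚ_[2]) =
            ∑ p ∈ b.natAbs.primeFactors.erase 2,
              (b.natAbs.factorization p : ℂ_[2]) * C L τ p (χ p) (k + 2 ^ k) ∧
          -- the power residue law and its converse, at all levels
          (∀ r a : ℕ, 2 ^ r * 4 ^ (Nat.log 2 b.natAbs + 1) ≤ 2 ^ k * n →
            ‖c ((k + 2 ^ k : ℕ) : ZMod T) - (a : ℤ_[2])‖ ≤ 2⁻¹ ^ r →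
            ((n ^ n + 1).Prime → (b : ZMod (n ^ n + 1)) ^ (n ^ n / 2 ^ r) *
              2 ^ (2 ^ (k + 1) * n / 2 ^ r * a) = 1) ∧
            (¬ 2 ^ r ∣ a → (b : ZMod (n ^ n + 1)) ^ (n ^ n / 2 ^ r) *
              2 ^ (2 ^ (k + 1) * n / 2 ^ r * a) = 1 → (n ^ n + 1).Prime)) ∧
          -- the criterion
          (2 ^ (c ((k + 2 ^ k : ℕ) : ZMod T)).valuation * 2 * 4 ^ (Nat.log 2 b.natAbs + 1) ≤
              2 ^ k * n →
            ((n ^ n + 1).Prime ↔ orderOf (b : ZMod (n ^ n + 1)) =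
              n ^ n / 2 ^ (c ((k + 2 ^ k : ℕ) : ZMod T)).valuation)) ∧
          -- the criterion at the level `2 n` for the bases `b (n^s - 1)`
          (2 * Nat.log 2 b.natAbs + 3 ≤ k → ∀ s t a : ℕ, t < 2 * n → s * t ≡ 1 [MOD 2 * n] →
            ‖c ((k + 2 ^ k : ℕ) : ZMod T) - (a : ℤ_[2])‖ ≤ 2⁻¹ ^ (2 ^ k + 1) →
            ((n ^ n + 1).Prime →
              ((b * (n ^ s - 1) : ℤ) : ZMod (n ^ n + 1)) ^ (n ^ (n - 1) / 2) *
                (n : ZMod (n ^ n + 1)) ^ a =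
                (n : ZMod (n ^ n + 1)) ^ ((if t < n then 1 else 7) * s * (n / 4))) ∧
            (¬ a ≡ (if t < n then 1 else 7) * s * (n / 4) [MOD 2 * n] →
              ((b * (n ^ s - 1) : ℤ) : ZMod (n ^ n + 1)) ^ (n ^ (n - 1) / 2) *
                (n : ZMod (n ^ n + 1)) ^ a =
                (n : ZMod (n ^ n + 1)) ^ ((if t < n then 1 else 7) * s * (n / 4)) →
              (n ^ n + 1).Prime)) := by
  refine ⟨?_, Pool.Agent.Y875.UE.exists_tau, Pool.Agent.Y875.UE.exists_chars, ?_⟩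
  · obtain ⟨L, hL⟩ := Pool.Agent.W289.SL.exists_iwasawaLog 2
    exact ⟨L, hL.mul, by simpa using hL.prime, hL.ser⟩
  · intro L hL τ χ hχ b hb0 hb
    obtain ⟨T, c, hT, htr, h⟩ := Pool.Agent.Y875.UE.final Pool.Agent.Y875.UE.parts
      Pool.Agent.Y875.UE.parts2 L ⟨hL.mul, by simpa using hL.two, hL.ser⟩ τ χ hχ b hb0 hb
    have D : Pool.Agent.Y875.UE.Dat b T c (fun m => Pool.Agent.Y875.UE.Cb L τ χ b m) :=
      ⟨fun m hm => (h m hm).1, fun m hm => (h m hm).2.1, fun m hm => (h m hm).2.2⟩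
    refine ⟨Pool.Agent.Y875.UE.nn_large D hT, T, c, hT, htr, fun k n hn hkn => ?_⟩
    have hm : 2 * Nat.log 2 b.natAbs + 2 ≤ k + 2 ^ k := by
      have := Pool.Agent.Y875.UE.lev (r := 0) (l := Nat.log 2 b.natAbs) hn (by simpa using hkn)
      omega
    refine ⟨D.val _ hm, fun r a hr ha => Pool.Agent.Y875.UE.nn_law D hn hr ha,
      fun hv => Pool.Agent.Y875.UE.nn_crit D hn hv, fun hk s t a ht hst ha => ?_⟩
    exact Pool.Agent.Y875.UE.nn_mixed Pool.Agent.Y875.UE.parts2.conv D hn (by omega) hk ht hst ha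

end Pool.Agent.Results.MP_a70bdc_nt.UniversalBases
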